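import Pool.Agent.H71.PX.Targets

/-!
# Prefix classes, row Z1: in a model whose last number is reached all elements are known
-/

set_option autoImplicit false

namespace Pool.Agent.H75.PX

open Pool.Agent.H71.PX

theorem pf_Z1 (ra : T_RA) (rb : T_RB) : T_Z1 := by
  intro α Q m U Hh Vv n v h I ht
  refine ⟨fun w hw => ?_, fun z hz => ?_⟩
  · by_contra hc
    push Not at hc
    have h1 := I.lt v le_rfl w hw hc
    exact (h.uN (I.num v le_rfl) hw).2.2.2.2.1 ht h1
  · have hex : ∃ i ≤ v, m.P false (n i) z := by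
      by_contra hc
      push Not at hc
      have h1 : m.L false (n v) z := (ra α Q m U Hh Vv n v h I z hz).1 v le_rfl false hc
      exact (h.uP (I.num v le_rfl) hz).2.2.2.2.2.2.2.2.2.1 ht h1
    obtain ⟨i, hi, hp⟩ := hex
    obtain ⟨j, hj, hq⟩ := (rb α Q m U Hh Vv n v h I z hz).1 i hi hp
    exact ⟨i, hi, j, hj, hp, hq⟩

end Pool.Agent.H75.PX
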