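import Pool.Agent.H71.PX.Targets

/-!
# Prefix classes, row Z2: for all numbers `j < i` the ground pair and the climber with the coordinates
`i`, `j` exist
-/

set_option autoImplicit false

namespace Pool.Agent.H75.PX

open Pool.Agent.H71.PX

theorem pf_Z2 (ra : T_RA) (rb : T_RB) (cs : T_CS) : T_Z2 := by
  intro α Q m U Hh Vv n v h I i hi
  have hN : ∀ k ≤ v, m.N (n k) := I.num
  have gd : ∀ j < i, ∃ g, m.gp g ∧ m.P false (n i) g ∧ m.P true (n j) g ∧
      ∀ q, (m.U1 q g ↔ m.T q (n i) (n j)) ∧ (m.U2 q g ↔ m.T q (n j) (n i)) :=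
    fun j hj => h.gnd (hN i hi) (hN j (by omega)) (I.ord j i hj hi)
  have cl : ∀ j < i, ∃ c, m.cl c ∧ m.P false (n i) c ∧ m.P true (n j) c := by
    intro j
    induction j with
    | zero =>
      intro hj
      obtain ⟨g, hg, hp, -⟩ := gd 0 hj
      have hz : ¬ m.Zr (n i) := fun hz =>
        (h.uN (hN 0 (by omega)) (hN i hi)).2.2.2.1 hz (I.ord 0 i hj hi)
      obtain ⟨y, hy, h2, hpy, -⟩ := h.stG (hN i hi) hg hp hz
      exact ⟨y, hy, hpy, (h.uP (hN 0 (by omega)) hy.1).2.2.2.2.2.2.2.2.1 I.zr h2⟩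
    | succ j ih =>
      intro hj
      obtain ⟨c, hc, hp, hq⟩ := ih (by omega)
      have hu := h.uP (hN j (by omega)) hc.1
      have hsd : ¬ m.SD c := by
        intro hs
        have h1 : m.R false (n j) c := (hu.2.2.2.2.2.2.2.2.2.2 hc.2 hq).1 hs
        have h2 : m.L false (n j) c := hu.2.1 false h1
        have h3 := ((ra α Q m U Hh Vv n v h I c hc.1).2 j (by omega) h2 false).1.2 h1
        have h4 := (rb α Q m U Hh Vv n v h I c hc.1).2.2 (j + 1) i (by omega) hi false h3 hp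
        omega
      obtain ⟨c', hb, hp'⟩ := h.cbN (hN i hi) hc hp hsd
      exact ⟨c', hb.1, hp', (cs α Q m U Hh Vv n v h I j (by omega) c c' hc hb hq).1⟩
  exact fun j hj => ⟨gd j hj, cl j hj⟩

end Pool.Agent.H75.PX
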