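import Pool.Agent.H71.PX.Targets

/-!
# Prefix classes, row Z3: two pairs of the same kind with the same coordinates are equal
-/

set_option autoImplicit false

namespace Pool.Agent.H75.PX

open Pool.Agent.H71.PX

theorem pf_Z3 (rb : T_RB) : T_Z3 := by
  intro α Q m U Hh Vv n v h I i hi j hj z u hz hu hzu h1 h2 h3 h4
  have hjv : j ≤ v := by omega
  have key : ∀ y, m.N y → ∀ a, m.P a y z → ¬ m.P a y u → False := by
    intro y hy a hp hq
    cases a
    · have h5 := I.s i hi false z y hz hy h1 hp
      rw [h5] at hq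
      exact hq h3
    · have h5 := I.s j hjv true z y hz hy h2 hp
      rw [h5] at hq
      exact hq h4
  by_contra hne
  by_cases hC : m.C z
  · have hcz : m.cl z := ⟨hz, hC⟩
    have hcu : m.cl u := ⟨hu, hzu.1 hC⟩
    have kA : ∀ z u, m.cl z → m.cl u → m.P true (n j) z → m.P true (n j) u → m.A z u →
        m.K z u → False := by
      intro z u hz hu pz pu ha hk
      obtain ⟨y, hy, p1, p2, -⟩ := h.tlA hz hu ha hk
      have h5 := I.s j hjv true u y hu.1 hy pu p1
      rw [h5] at p2
      exact p2 pz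
    have kE : ∀ z u, m.cl z → m.cl u → m.P false (n i) z → m.P true (n j) u → ¬ m.E z u := by
      intro z u hz hu pz pu he
      have h5 := I.sE i hi z u hz hu he pz
      have h6 := (rb α Q m U Hh Vv n v h I u hu.1).2.2 i j hi hjv true h5 pu
      omega
    by_cases hA : m.A z u
    · rcases h.A_K hcz hcu hA hne with hk | hk
      · exact kA z u hcz hcu h2 h4 hA hk
      · exact kA u z hcu hcz h4 h2 (h.A_symm hcz hcu hA) hk
    · obtain ⟨y, hy, a, p, q⟩ :=
        h.sepC hcz hcu hne hA (kE z u hcz hcu h1 h4) (kE u z hcu hcz h3 h2)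
      exact key y hy a p q
  · obtain ⟨y, hy, a, p, q⟩ := h.sepG ⟨hz, hC⟩ ⟨hu, fun hc => hC (hzu.2 hc)⟩ hne
    exact key y hy a p q

end Pool.Agent.H75.PX
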